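import Pool.Agent.Helper72_Cut.Size

/-!
# Z3 : one-card upper bounds for the parameters
-/

set_option autoImplicit false

namespace H72C.H77

open Finset Equiv Pool.Agent.Helper91_CW

lemma log8_le : Real.log 8 ≤ 3 := by
  rw [Real.log_le_iff_le_exp (by norm_num)]
  have h1 : (2.7 : ℝ) ≤ Real.exp 1 := by
    have := Real.exp_one_gt_d9
    linarith
  have h2 : Real.exp 3 = Real.exp 1 ^ 3 := by
    rw [← Real.exp_nat_mul]
    norm_num
  rw [h2]
  calc (8 : ℝ) ≤ 2.7 ^ 3 := by norm_num
    _ ≤ Real.exp 1 ^ 3 := by gcongr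

lemma log4_le : Real.log 4 ≤ 2 := by
  have h1 := log8_le
  have h2 : Real.log 8 = 3 * Real.log 2 := by
    rw [show (8 : ℝ) = 2 ^ 3 by norm_num, Real.log_pow]
    norm_num
  have h3 : Real.log 4 = 2 * Real.log 2 := by
    rw [show (4 : ℝ) = 2 ^ 2 by norm_num, Real.log_pow]
    norm_num
  rw [h3]
  linarith

lemma pow_survive {u T x : ℝ} {t : ℕ} (hu0 : 0 ≤ u) (hu : u ≤ 1) (hT : T ≤ t)
    (hx : x ≤ u * T) : (1 - u) ^ t ≤ Real.exp (-x) := by
  have h1 : 1 - u ≤ Real.exp (-u) := Real.one_sub_le_exp_neg u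
  calc (1 - u) ^ t ≤ Real.exp (-u) ^ t := pow_le_pow_left₀ (by linarith) h1 t
    _ = Real.exp (-(u * t)) := by
        rw [← Real.exp_nat_mul]
        congr 1
        ring
    _ ≤ Real.exp (-x) := by
        apply Real.exp_le_exp.mpr
        have : u * T ≤ u * t := by gcongr
        linarith

theorem LADC (hrate : RATE_stmt) (htime : TIME_stmt) (hS : LADS_stmt) (hE : LADE_stmt) :
    LADC_stmt := by
  intro R hR hbig P hP
  obtain ⟨-, -, -, -, -, -, -, hlow, -, htop, hgood, hEbig⟩ := hrate R hR hbig P hP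
  obtain ⟨t1, t2, -, -, -⟩ := htime R hR hbig P hP
  obtain ⟨s1, s2, s3, s4, -, -⟩ := SIZE R hbig
  have hR1 : 1 ≤ R := by omega
  have hRr : (10 : ℝ) ^ 13 ≤ R := by exact_mod_cast hbig
  have hRpos : (0 : ℝ) < R := by linarith [show (0 : ℝ) < 10 ^ 13 by norm_num]
  have hm : ∀ g, P.m g = mt R g := by intro g; rw [hP]; rfl
  have hM0n : P.M0 = R * Ww R := by rw [hP]; rfl
  have hM0 : (P.M0 : ℝ) = R * Ww R := by rw [hM0n]; push_cast; ring
  have hW : (Ww R : ℝ) = 401000 * 4 ^ R := by unfold Ww; push_cast; ring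
  have hWpos : (0 : ℝ) < Ww R := by rw [hW]; positivity
  have hM0pos : (0 : ℝ) < P.M0 := by rw [hM0]; positivity
  have hEpos : 0 < EE P := by linarith [show (0 : ℝ) < 10 ^ 6 by norm_num]
  have hntpos : 0 < nt P := by
    unfold EE at hEpos
    by_contra hneg
    push Not at hneg
    have : 8 * nt P * P.M0 / (15 * 401000) ≤ 0 := by
      apply div_nonpos_of_nonpos_of_nonneg
      · nlinarith
      · norm_num
    linarith
  have h9 : (9 : ℝ) / R ≤ 1 / 4 := by
    rw [div_le_div_iff₀ hRpos (by norm_num)]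
    linarith [show (36 : ℝ) ≤ 10 ^ 13 by norm_num]
  have h9pos : (0 : ℝ) < 9 / R := by positivity
  -- simple lower bound for the rates
  have hU : ∀ g j, j < P.m g → 2 * bb R g j / (nt P * P.M0) ≤ UP P g j := by
    intro g j hj
    refine le_trans ?_ (hlow g j hj)
    have hb := bbR_pos hR1 g j
    rw [div_le_div_iff₀ (by positivity) (by positivity)]
    have h1 : (1 + 9 / (R : ℝ)) ≤ 5 / 4 := by linarith
    have h2 : 0 ≤ (bb R g j : ℝ) * (nt P * P.M0) := by positivity
    calc 2 * (bb R g j : ℝ) * (2 * nt P * P.M0 * (1 + 9 / R))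
        = (4 * (bb R g j * (nt P * P.M0))) * (1 + 9 / R) := by ring
      _ ≤ (4 * (bb R g j * (nt P * P.M0))) * (5 / 4) := by gcongr
      _ = 5 * (bb R g j : ℝ) * (nt P * P.M0) := by ring
  -- sizes
  set Q : ℝ := (4 : ℝ) ^ R with hQ
  have hQn : ((4 ^ R : ℕ) : ℝ) = Q := by rw [hQ]; push_cast; ring
  have hQpos : 0 < Q := by positivity
  have hs2 : 10 ^ 6 * (R : ℝ) ≤ Q := by rw [← hQn]; exact_mod_cast s2
  have hs1 : 10 ^ 6 * (Jj R : ℝ) ≤ Q := by rw [← hQn]; exact_mod_cast s1
  have hs4 : (R : ℝ) * Ww R ≤ 4 ^ (3 * R) := by exact_mod_cast s4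
  set ε0 : ℝ := 1 / (8 * R * P.M0) with hε0
  have hRM : (1 : ℝ) ≤ R * P.M0 := by
    have h1 : (1 : ℝ) ≤ P.M0 := by
      have := P.hM0
      exact_mod_cast (by omega : 1 ≤ P.M0)
    nlinarith [show (1 : ℝ) ≤ 10 ^ 13 by norm_num]
  have hε0pos : 0 < ε0 := by positivity
  have hε0le : ε0 ≤ 1 / 8 := by
    rw [hε0, div_le_div_iff₀ (by positivity) (by norm_num)]
    nlinarith
  have hlogε : Real.log (1 / ε0) ≤ 3 + 8 * R := by
    rw [hε0, one_div_one_div]
    have h1 : (8 : ℝ) * R * P.M0 ≤ 8 * 4 ^ (4 * R) := by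
      have h2 : (R : ℝ) ≤ 4 ^ R := by
        rw [← hQ]
        nlinarith
      calc (8 : ℝ) * R * P.M0 = 8 * (R * (R * Ww R)) := by rw [hM0]; ring
        _ ≤ 8 * (4 ^ R * 4 ^ (3 * R)) := by gcongr
        _ = 8 * 4 ^ (4 * R) := by rw [← pow_add]; congr 2; ring
    calc Real.log (8 * R * P.M0) ≤ Real.log (8 * 4 ^ (4 * R)) :=
          Real.log_le_log (by positivity) h1
      _ = Real.log 8 + (4 * R) * Real.log 4 := by
          rw [Real.log_mul (by norm_num) (by positivity), Real.log_pow]
          push_cast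
          ring
      _ ≤ 3 + (4 * R) * 2 := by
          have := log8_le
          have := log4_le
          gcongr
      _ = 3 + 8 * R := by ring
  set t4 : ℕ := ⌈501 * EE P⌉₊ with ht4
  have ht4' : 501 * EE P ≤ t4 := Nat.le_ceil _
  -- the product `E * rate`
  have hprod : ∀ g y, Jj R ≤ y → y ≤ P.m g → 17 * Q ≤ UP P g y / 30 * (501 * EE P) := by
    intro g y hy hym
    rcases lt_or_eq_of_le hym with h | h
    · have h1 := hU g y h
      have h2 : (bb R g y : ℝ) = Ww R := by
        unfold bb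
        rw [if_neg (by omega)]
      rw [h2] at h1
      calc 17 * Q ≤ 2 * Ww R / (nt P * P.M0) / 30 * (501 * EE P) := by
            unfold EE
            have : 2 * (Ww R : ℝ) / (nt P * P.M0) / 30 * (501 * (8 * nt P * P.M0 / (15 * 401000))) =
                (8016 / (450 * 401000)) * Ww R := by
              field_simp
              ring
            rw [this, hW]
            nlinarith
        _ ≤ _ := by gcongr
    · subst h
      have h1 := (htop g).1
      calc 17 * Q ≤ 1 / (2 * nt P) / 30 * (501 * EE P) := by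
            unfold EE
            have : 1 / (2 * nt P) / 30 * (501 * (8 * nt P * P.M0 / (15 * 401000))) =
                (4008 / (900 * 401000)) * P.M0 := by
              field_simp
              ring
            rw [this, hM0, hW]
            have h3 : 10 ^ 13 * Q ≤ R * Q := by gcongr
            nlinarith
        _ ≤ _ := by gcongr
  have hR2 : ∀ g y, Jj R ≤ y → y ≤ P.m g →
      2 ^ P.m g * (1 - UP P g y / 30) ^ t4 ≤ ε0 * (1 / 4) ^ y := by
    intro g y hy hym
    have h1 := pow_survive (u := UP P g y / 30) (T := 501 * EE P) (x := 17 * Q) (t := t4)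
      (by have := (hgood g).pos y hym; positivity)
      (by have := (hgood g).le y hym; linarith) ht4' (hprod g y hy hym)
    have hmle : P.m g ≤ Jj R + 3 * 4 ^ R := by
      rw [hm]; unfold mt; split_ifs <;> omega
    have h2 : (8 : ℝ) * R * P.M0 * 4 ^ y * 2 ^ P.m g ≤ Real.exp (17 * Q) := by
      have h3 : (8 : ℝ) * R * P.M0 ≤ Real.exp (3 + 8 * R) := by
        have h4 : 8 * R * P.M0 = Real.exp (Real.log (1 / ε0)) := by
          rw [Real.exp_log (by positivity), hε0, one_div_one_div]
        rw [h4]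
        exact Real.exp_le_exp.mpr hlogε
      have h5 : (4 : ℝ) ^ y * 2 ^ P.m g ≤ Real.exp (3 * (Jj R + 3 * Q)) := by
        calc (4 : ℝ) ^ y * 2 ^ P.m g ≤ 4 ^ (Jj R + 3 * 4 ^ R) * 2 ^ (Jj R + 3 * 4 ^ R) := by
              have : (4 : ℝ) ^ y ≤ 4 ^ (Jj R + 3 * 4 ^ R) :=
                pow_le_pow_right₀ (by norm_num) (hym.trans hmle)
              have : (2 : ℝ) ^ P.m g ≤ 2 ^ (Jj R + 3 * 4 ^ R) :=
                pow_le_pow_right₀ (by norm_num) hmle
              gcongr
          _ = 8 ^ (Jj R + 3 * 4 ^ R) := by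
              rw [← mul_pow]
              norm_num
          _ = Real.exp (Real.log 8 * (Jj R + 3 * 4 ^ R : ℕ)) := by
              rw [mul_comm (Real.log 8), Real.exp_nat_mul, Real.exp_log (by norm_num)]
          _ ≤ Real.exp (3 * (Jj R + 3 * Q)) := by
              apply Real.exp_le_exp.mpr
              have h6 : ((Jj R + 3 * 4 ^ R : ℕ) : ℝ) = Jj R + 3 * Q := by
                push_cast
                ring
              rw [h6]
              have := log8_le
              gcongr
      calc (8 : ℝ) * R * P.M0 * 4 ^ y * 2 ^ P.m g = (8 * R * P.M0) * (4 ^ y * 2 ^ P.m g) := by ring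
        _ ≤ Real.exp (3 + 8 * R) * Real.exp (3 * (Jj R + 3 * Q)) := by gcongr
        _ = Real.exp (3 + 8 * R + 3 * (Jj R + 3 * Q)) := by rw [← Real.exp_add]
        _ ≤ Real.exp (17 * Q) := by
            apply Real.exp_le_exp.mpr
            nlinarith
    have h7 : (0 : ℝ) < 2 ^ P.m g := by positivity
    calc 2 ^ P.m g * (1 - UP P g y / 30) ^ t4 ≤ 2 ^ P.m g * Real.exp (-(17 * Q)) := by gcongr
      _ ≤ ε0 * (1 / 4) ^ y := by
          rw [Real.exp_neg, ← div_eq_mul_inv, hε0, one_div_pow, div_mul_div_comm, one_mul,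
            div_le_div_iff₀ (by positivity) (by positivity)]
          calc (2 : ℝ) ^ P.m g * (8 * R * P.M0 * 4 ^ y) = 8 * R * P.M0 * 4 ^ y * 2 ^ P.m g := by ring
            _ ≤ Real.exp (17 * Q) := h2
            _ = 1 * Real.exp (17 * Q) := (one_mul _).symm
  constructor
  · intro g t ht j hj
    exact hS (UP P g) (P.m g) (Jj R) t4 ε0 (hgood g) hε0pos hε0le (fun y h1 h2 => hR2 g y h1 h2)
      t (Nat.ceil_le.mpr ht) j hj
  · intro g i t hi ht hSt j hj
    have h := hE (UP P g) (P.m g) (Jj R) t4 i ε0 (1 / 250000) (EE P / 100) (hgood g) hε0pos hε0le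
      (by norm_num) (by norm_num) (by positivity) hi (by
        have h1 : SS (UP P g) i ≤ 1003.01 * EE P := by
          cases g
          · have := t1 i hi
            linarith
          · exact t2 i hi
        linarith) (by
        intro y hy hym
        have hylt : y < P.m g := by
          rw [hm]
          unfold mt
          split_ifs <;> omega
        have h1 := hU g y hylt
        have h2 : (200 : ℝ) * R * y ≤ bb R g y := by exact_mod_cast bb_lin hR1 g hy
        have h3 : (400 : ℝ) * R ^ 2 ≤ bb R g y := by exact_mod_cast bb_lower hR1 g y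
        have h4 : 3 / 10 * (1 / 250000) * (EE P / 100) * (2 * bb R g y / (nt P * P.M0)) =
            (3 / 10 * (1 / 250000) * (1 / 100) * (16 / (15 * 401000))) * bb R g y := by
          unfold EE
          field_simp
          ring
        have h5 : (0 : ℝ) ≤ y := by positivity
        have h6 : (y : ℝ) * Real.log 4 ≤ y * 2 := by
          have := log4_le
          gcongr
        have h7 : (10 : ℝ) ^ 13 * y ≤ R * y := by gcongr
        have h8 : (10 : ℝ) ^ 13 * R ≤ R ^ 2 := by
          rw [sq]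
          gcongr
        calc y * Real.log 4 + Real.log (1 / ε0) ≤ y * 2 + (3 + 8 * R) := add_le_add h6 hlogε
          _ ≤ (3 / 10 * (1 / 250000) * (1 / 100) * (16 / (15 * 401000))) *
              (100 * (R * y) + 200 * R ^ 2) := by
              nlinarith
          _ ≤ (3 / 10 * (1 / 250000) * (1 / 100) * (16 / (15 * 401000))) * bb R g y := by
              gcongr
              linarith
          _ = 3 / 10 * (1 / 250000) * (EE P / 100) * (2 * bb R g y / (nt P * P.M0)) := h4.symm
          _ ≤ 3 / 10 * (1 / 250000) * (EE P / 100) * UP P g y := by gcongr)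
      (fun y h1 h2 => hR2 g y h1 h2) t (Nat.ceil_le.mpr ht) hSt j hj
    refine h.trans (le_of_eq ?_)
    rw [hε0]
    field_simp
    ring

end H72C.H77
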