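import Pool.Agent.Helper72_Cut.Size
import Pool.Agent.Helper22_Cut.Wts
import Pool.Agent.Helper3_CW.Small

/-!
# Z1 : rates
-/

set_option autoImplicit false

namespace H72C.H77

open Finset Equiv Pool.Agent.Helper91_CW

/-- the number of gadget vertices -/
lemma card_Hx (P : Par) : (Fintype.card (Hx P) : ℝ) =
    ∑ g : Bool, ∑ j ∈ range (P.m g + 1), (P.M0 : ℝ) * 4 ^ j := by
  have h := Pool.Agent.Helper3_CW.SUM P (fun _ _ => 1)
  simp only [mul_one, sum_const, card_univ, nsmul_eq_mul] at h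
  exact h

lemma geom4 (n : ℕ) : ∑ j ∈ range (n + 1), (4 : ℝ) ^ j ≤ (4 / 3) * 4 ^ n := by
  have h : ∑ j ∈ range (n + 1), (4 : ℝ) ^ j = (4 ^ (n + 1) - 1) / 3 := by
    rw [geom_sum_eq (by norm_num)]
    norm_num
  rw [h, pow_succ]
  linarith

lemma card_Hx_le (P : Par) (M : ℕ) (hm : ∀ g, P.m g ≤ M) :
    (Fintype.card (Hx P) : ℝ) ≤ P.M0 * 4 ^ (M + 1) := by
  rw [card_Hx]
  have h1 : ∀ g ∈ (univ : Finset Bool), ∑ j ∈ range (P.m g + 1), (P.M0 : ℝ) * 4 ^ j ≤
      (P.M0 : ℝ) * ((4 / 3) * 4 ^ M) := by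
    intro g _
    rw [← mul_sum]
    have h2 := geom4 (P.m g)
    have h3 : (4 : ℝ) ^ P.m g ≤ 4 ^ M := pow_le_pow_right₀ (by norm_num) (hm g)
    have h4 : ∑ j ∈ range (P.m g + 1), (4 : ℝ) ^ j ≤ (4 / 3) * 4 ^ M := by linarith
    gcongr
  refine (sum_le_sum h1).trans ?_
  rw [sum_const, card_univ, Fintype.card_bool, nsmul_eq_mul, pow_succ]
  have h5 : (0 : ℝ) ≤ P.M0 * 4 ^ M := by positivity
  push_cast
  nlinarith

/-- the clique is much larger than the gadgets -/
lemma size_key {R : ℕ} (hR : 10 ^ 13 ≤ R) :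
    10 ^ 4 * (R * Ww R * 4 ^ (Jj R + 3 * 4 ^ R + 1)) ≤ 4 ^ (5 * 4 ^ R) := by
  obtain ⟨h1, h2, h3, h4, -, -⟩ := SIZE R hR
  have h5 : (10 : ℕ) ^ 4 ≤ 4 ^ 7 := by norm_num
  calc 10 ^ 4 * (R * Ww R * 4 ^ (Jj R + 3 * 4 ^ R + 1))
      ≤ 4 ^ 7 * (4 ^ (3 * R) * 4 ^ (Jj R + 3 * 4 ^ R + 1)) := by gcongr
    _ = 4 ^ (7 + (3 * R + (Jj R + 3 * 4 ^ R + 1))) := by rw [← pow_add, ← pow_add]
    _ ≤ 4 ^ (5 * 4 ^ R) := by
        apply Nat.pow_le_pow_right (by norm_num)
        generalize (4 : ℕ) ^ R = x at *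
        generalize Jj R = y at *
        omega

lemma dL_lower (P : Par) (g : Bool) (j : ℕ) : (P.M0 : ℝ) * 4 ^ j ≤ dL P g j := by
  rw [Helper22.dL_cast]
  have h1 : (1 : ℝ) ≤ if j < P.m g then (P.w g j * 4 ^ (j + 1) : ℝ) else P.Mn := by
    split_ifs
    · have h2 : (1 : ℝ) ≤ P.w g j := by exact_mod_cast P.hw1 g j
      have h3 : (1 : ℝ) ≤ 4 ^ (j + 1) := one_le_pow₀ (by norm_num)
      nlinarith
    · have := Helper22.Mn_ge P
      linarith
  have h2 : (0 : ℝ) ≤ if 0 < j then (P.w g (j - 1) * 4 ^ (j - 1) : ℝ) else 0 := by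
    split_ifs <;> positivity
  linarith

lemma dL_upper (P : Par) (g : Bool) (j : ℕ) (hj : j < P.m g) (W : ℝ) (hW : 0 ≤ W)
    (h1 : (P.w g j : ℝ) ≤ 2 * W) (h2 : ∀ i, i + 1 < P.m g → (P.w g i : ℝ) ≤ W) :
    (dL P g j : ℝ) ≤ P.M0 * 4 ^ j + 9 * W * 4 ^ j := by
  rw [Helper22.dL_cast, if_pos hj]
  have h4 : (0 : ℝ) < 4 ^ j := by positivity
  have h3 : (if 0 < j then (P.w g (j - 1) * 4 ^ (j - 1) : ℝ) else 0) ≤ W * 4 ^ j := by
    split_ifs with h
    · have h5 := h2 (j - 1) (by omega)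
      have h6 : (4 : ℝ) ^ (j - 1) ≤ 4 ^ j := pow_le_pow_right₀ (by norm_num) (by omega)
      gcongr
    · positivity
  have h7 : (P.w g j : ℝ) * 4 ^ (j + 1) ≤ 2 * W * 4 ^ (j + 1) := by gcongr
  rw [pow_succ] at h7 ⊢
  nlinarith

lemma UP_upper (P : Par) (g : Bool) (j : ℕ) (hj : j < P.m g) (w : ℝ) (hw : (P.w g j : ℝ) ≤ w) :
    UP P g j ≤ 5 * w / (2 * nt P * P.M0) := by
  have hnt := (Helper22.nt_bound P).2
  have hM : (0 : ℝ) < P.M0 := by
    have := P.hM0
    have : 0 < P.M0 := by omega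
    exact_mod_cast this
  have h1 := dL_lower P g j
  have h2 := dL_lower P g (j + 1)
  have h4 : (0 : ℝ) < 4 ^ j := by positivity
  have h5 : 0 ≤ w := le_trans (by positivity) hw
  unfold UP
  rw [if_pos hj]
  calc (P.w g j * 4 ^ (j + 1) : ℝ) *
        (1 / (2 * nt P) * (1 / (dL P g j : ℝ) + 1 / (dL P g (j + 1) : ℝ)))
      ≤ (w * 4 ^ (j + 1)) *
        (1 / (2 * nt P) * (1 / (P.M0 * 4 ^ j) + 1 / (P.M0 * 4 ^ (j + 1)))) := by
        gcongr
    _ = 5 * w / (2 * nt P * P.M0) := by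
        rw [pow_succ]
        field_simp
        ring

lemma UP_lower1 (P : Par) (g : Bool) (j : ℕ) (hj : j + 1 < P.m g) (c : ℝ) (hc : 0 < c)
    (h1 : (dL P g j : ℝ) ≤ P.M0 * 4 ^ j * c) (h2 : (dL P g (j + 1) : ℝ) ≤ P.M0 * 4 ^ (j + 1) * c) :
    5 * P.w g j / (2 * nt P * P.M0 * c) ≤ UP P g j := by
  have hnt := (Helper22.nt_bound P).2
  have hM : (0 : ℝ) < P.M0 := by
    have := P.hM0
    have : 0 < P.M0 := by omega
    exact_mod_cast this
  have h3 := Helper22.dL_ge P g j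
  have h4 := Helper22.dL_ge P g (j + 1)
  unfold UP
  rw [if_pos (by omega)]
  calc 5 * P.w g j / (2 * nt P * P.M0 * c)
      = (P.w g j * 4 ^ (j + 1)) *
        (1 / (2 * nt P) * (1 / (P.M0 * 4 ^ j * c) + 1 / (P.M0 * 4 ^ (j + 1) * c))) := by
        rw [pow_succ]
        field_simp
        ring
    _ ≤ _ := by
        gcongr

lemma UP_lower2 (P : Par) (g : Bool) (j : ℕ) (hj : j < P.m g) (c : ℝ) (hc : 0 < c)
    (h1 : (dL P g j : ℝ) ≤ P.M0 * 4 ^ j * c) :
    4 * P.w g j / (2 * nt P * P.M0 * c) ≤ UP P g j := by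
  have hnt := (Helper22.nt_bound P).2
  have hM : (0 : ℝ) < P.M0 := by
    have := P.hM0
    have : 0 < P.M0 := by omega
    exact_mod_cast this
  have h3 := Helper22.dL_ge P g j
  have h4 := Helper22.dL_ge P g (j + 1)
  unfold UP
  rw [if_pos hj]
  calc 4 * P.w g j / (2 * nt P * P.M0 * c)
      = (P.w g j * 4 ^ (j + 1)) *
        (1 / (2 * nt P) * (1 / (P.M0 * 4 ^ j * c) + 0)) := by
        rw [pow_succ]
        field_simp
        ring
    _ ≤ _ := by
        gcongr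
        positivity


lemma mt_le (R : ℕ) (g : Bool) : mt R g ≤ Jj R + 3 * 4 ^ R := by
  unfold mt
  split_ifs <;> omega

lemma wt_le {R : ℕ} (hR : 1 ≤ R) (g : Bool) (j : ℕ) : (wt R g j : ℝ) ≤ 2 * (Ww R : ℝ) := by
  have h1 := bb_le_Ww hR g j
  have h2 : wt R g j ≤ 2 * Ww R := by
    unfold wt
    split_ifs <;> omega
  exact_mod_cast h2

lemma wt_eq {R : ℕ} {g : Bool} {j : ℕ} (h : j + 1 < mt R g) : wt R g j = bb R g j := by
  unfold wt
  rw [if_neg (by omega)]

theorem RATE : RATE_stmt := by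
  intro R hR hbig P hP
  have hR1 : 1 ≤ R := by omega
  have hRr : (10 : ℝ) ^ 13 ≤ R := by exact_mod_cast hbig
  have hRpos : (0 : ℝ) < R := by linarith [show (0 : ℝ) < 10 ^ 13 by norm_num]
  obtain ⟨s1, s2, s3, s4, -, -⟩ := SIZE R hbig
  have hkey := size_key hbig
  have hm : ∀ g, P.m g = mt R g := by intro g; rw [hP]; rfl
  have hw : ∀ g j, P.w g j = wt R g j := by intro g j; rw [hP]; rfl
  have hMn : P.Mn = 4 ^ (5 * 4 ^ R) := by rw [hP]; rfl
  have hM0n : P.M0 = R * Ww R := by rw [hP]; rfl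
  have hM0 : (P.M0 : ℝ) = R * Ww R := by rw [hM0n]; push_cast; ring
  have hW : (Ww R : ℝ) = 401000 * 4 ^ R := by unfold Ww; push_cast; ring
  have hWpos : (0 : ℝ) < Ww R := by rw [hW]; positivity
  have hM0pos : (0 : ℝ) < P.M0 := by rw [hM0]; positivity
  have hnt := (Helper22.nt_bound P).2
  -- sizes
  have hmle : ∀ g, P.m g ≤ Jj R + 3 * 4 ^ R := by intro g; rw [hm g]; exact mt_le R g
  have hcard := card_Hx_le P (Jj R + 3 * 4 ^ R) hmle
  have hkey2 : (10 : ℝ) ^ 4 * (P.M0 * 4 ^ (Jj R + 3 * 4 ^ R + 1)) ≤ P.Mn := by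
    rw [hM0n, hMn]
    exact_mod_cast hkey
  have hMbig : (4 * 10 ^ 13 : ℝ) ≤ P.M0 := by
    rw [hM0, hW]
    have : (1 : ℝ) ≤ 4 ^ R := one_le_pow₀ (by norm_num)
    nlinarith
  have hcard0 : (0 : ℝ) ≤ Fintype.card (Hx P) := by positivity
  have hA : (4 : ℝ) ≤ 4 ^ (Jj R + 3 * 4 ^ R + 1) := by
    calc (4 : ℝ) = 4 ^ 1 := by norm_num
      _ ≤ 4 ^ (Jj R + 3 * 4 ^ R + 1) := pow_le_pow_right₀ (by norm_num) (by omega)
  have hB : (P.M0 : ℝ) ≤ P.M0 * 4 ^ (Jj R + 3 * 4 ^ R + 1) := by nlinarith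
  have hNbig : (10 : ℝ) ^ 17 ≤ P.Mn := by nlinarith
  have hcN : (10 : ℝ) ^ 4 * Fintype.card (Hx P) ≤ P.Mn := by nlinarith
  have hnn := Helper22.nn_eq P
  have hnnpos : 0 < nn P := by linarith
  -- degrees
  have hdlow := dL_lower P
  have hwle : ∀ g j, (P.w g j : ℝ) ≤ 2 * (Ww R : ℝ) := by
    intro g j; rw [hw]; exact wt_le hR1 g j
  have hwb : ∀ g j, j + 1 < P.m g → (P.w g j : ℝ) = bb R g j := by
    intro g j hj
    rw [hw, wt_eq (by rw [← hm]; exact hj)]
  have hbW : ∀ g j, (bb R g j : ℝ) ≤ Ww R := by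
    intro g j; exact_mod_cast bb_le_Ww hR1 g j
  have hdup : ∀ g j, j < P.m g → (dL P g j : ℝ) ≤ P.M0 * 4 ^ j * (1 + 9 / R) := by
    intro g j hj
    have h := dL_upper P g j hj (Ww R) hWpos.le (hwle g j) (by
      intro i hi
      rw [hwb g i hi]
      exact hbW g i)
    refine h.trans (le_of_eq ?_)
    rw [hM0]
    field_simp
  have h9 : (9 : ℝ) / R ≤ 9 / 10 ^ 13 := by gcongr
  have h9pos : (0 : ℝ) < 9 / R := by positivity
  have hd0 : ∀ g, (dL P g 0 : ℝ) ≤ 1.1 * P.M0 := by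
    intro g
    have h := hdup g 0 (P.hm g)
    rw [pow_zero, mul_one] at h
    refine h.trans ?_
    nlinarith
  have hd0l : ∀ g, (P.M0 : ℝ) ≤ dL P g 0 := by
    intro g
    have h := hdlow g 0
    rw [pow_zero, mul_one] at h
    exact h
  -- p1
  have hp1 : 1 / (1.1 * nn P * P.M0) ≤ p1 P ∧ p1 P ≤ 1 / (nn P * P.M0) := by
    have e1 := hd0 false
    have e2 := hd0 true
    have e3 := hd0l false
    have e4 := hd0l true
    unfold p1
    constructor
    · calc 1 / (1.1 * nn P * P.M0) = 1 / (2 * nn P) * (1 / (1.1 * P.M0) + 1 / (1.1 * P.M0)) := by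
            field_simp
            ring
        _ ≤ _ := by
            have p1 : (0 : ℝ) < dL P false 0 := by linarith
            have p2 : (0 : ℝ) < dL P true 0 := by linarith
            gcongr
    · calc _ ≤ 1 / (2 * nn P) * (1 / P.M0 + 1 / P.M0) := by gcongr
        _ = 1 / (nn P * P.M0) := by
            field_simp
            ring
  have hp1pos := (Helper22.np1 P).1
  -- nt
  have hnt2 : 0.999 * nn P ≤ nt P ∧ nt P ≤ nn P := by
    have h1 : nt P = nn P - 2 * (nn P * p1 P) := by unfold nt; ring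
    have h2 : nn P * p1 P ≤ 1 := by
      calc nn P * p1 P ≤ nn P * (1 / (nn P * P.M0)) := by gcongr; exact hp1.2
        _ = 1 / P.M0 := by field_simp
        _ ≤ 1 := by rw [div_le_one hM0pos]; linarith
    have h3 : 0 < nn P * p1 P := by positivity
    constructor
    · rw [h1]; nlinarith
    · rw [h1]; linarith
  have hdM : (P.Mn : ℝ) ≤ dM P ∧ (dM P : ℝ) ≤ 2 * P.Mn := by
    refine ⟨Helper22.dM_ge P, ?_⟩
    rw [Helper22.dM_cast, Fintype.sum_bool]
    have h1 : ∀ g, (P.M0 : ℝ) * 4 ^ P.m g ≤ P.M0 * 4 ^ (Jj R + 3 * 4 ^ R + 1) := by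
      intro g
      have : (4 : ℝ) ^ P.m g ≤ 4 ^ (Jj R + 3 * 4 ^ R + 1) :=
        pow_le_pow_right₀ (by norm_num) (by have := hmle g; omega)
      gcongr
    have h2 := h1 true
    have h3 := h1 false
    nlinarith
  have hdm : ∀ g, (P.Mn : ℝ) ≤ dL P g (P.m g) ∧ (dL P g (P.m g) : ℝ) ≤ 2 * P.Mn := by
    intro g
    rw [Helper22.dL_cast, if_neg (lt_irrefl _), if_pos (by have := P.hm g; omega)]
    have h1 : (1 : ℝ) ≤ 4 ^ P.m g := one_le_pow₀ (by norm_num)
    have h2 : (P.w g (P.m g - 1) : ℝ) ≤ P.M0 := by exact_mod_cast P.hw2 g _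
    have h3 : (0 : ℝ) ≤ P.w g (P.m g - 1) * 4 ^ (P.m g - 1) := by positivity
    have h4 : (P.w g (P.m g - 1) * 4 ^ (P.m g - 1) : ℝ) ≤ P.M0 * 4 ^ P.m g := by
      have : (4 : ℝ) ^ (P.m g - 1) ≤ 4 ^ P.m g := pow_le_pow_right₀ (by norm_num) (by omega)
      gcongr
    have h5 : (P.M0 : ℝ) * 4 ^ P.m g ≤ P.M0 * 4 ^ (Jj R + 3 * 4 ^ R + 1) := by
      have : (4 : ℝ) ^ P.m g ≤ 4 ^ (Jj R + 3 * 4 ^ R + 1) :=
        pow_le_pow_right₀ (by norm_num) (by have := hmle g; omega)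
      gcongr
    constructor
    · nlinarith
    · nlinarith
  have hntbig : (10 : ℝ) ^ 16 ≤ nt P := by
    have := hnt2.1
    nlinarith
  -- lower bounds for the rates
  have hlow : ∀ g j, j < P.m g →
      (5 * bb R g j : ℝ) / (2 * nt P * P.M0 * (1 + 9 / R)) ≤ UP P g j := by
    intro g j hj
    have hb0 := bbR_pos hR1 g j
    by_cases hj1 : j + 1 < P.m g
    · have h := UP_lower1 P g j hj1 (1 + 9 / R) (by positivity) (hdup g j hj) (hdup g (j + 1) hj1)
      rw [hwb g j hj1] at h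
      exact h
    · have h := UP_lower2 P g j hj (1 + 9 / R) (by positivity) (hdup g j hj)
      refine le_trans ?_ h
      have h1 : P.w g j = 2 * bb R g j := by
        rw [hw]
        unfold wt
        rw [if_pos (by rw [← hm]; omega)]
      rw [h1]
      push_cast
      apply div_le_div_of_nonneg_right _ (by positivity)
      linarith
  have hup : ∀ g j, j + 1 < P.m g → UP P g j ≤ (5 * bb R g j : ℝ) / (2 * nt P * P.M0) := by
    intro g j hj
    exact UP_upper P g j (by omega) (bb R g j) (hwb g j hj).le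
  have htop : ∀ g, 1 / (2 * nt P) ≤ UP P g (P.m g) ∧ UP P g (P.m g) ≤ 1 / nt P := by
    intro g
    obtain ⟨a1, a2⟩ := hdm g
    obtain ⟨b1, b2⟩ := hdM
    have hMnpos : (0 : ℝ) < P.Mn := by linarith
    unfold UP
    rw [if_neg (lt_irrefl _)]
    constructor
    · calc 1 / (2 * nt P) = (P.Mn : ℝ) * (1 / (2 * nt P) * (1 / (2 * P.Mn) + 1 / (2 * P.Mn))) := by
            field_simp
            ring
        _ ≤ _ := by
            have p1 : (0 : ℝ) < dL P g (P.m g) := by linarith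
            have p2 : (0 : ℝ) < dM P := by linarith
            gcongr
    · calc _ ≤ (P.Mn : ℝ) * (1 / (2 * nt P) * (1 / P.Mn + 1 / P.Mn)) := by gcongr
        _ = 1 / nt P := by
            field_simp
            ring
  have hgen : ∀ g j, j < P.m g → UP P g j ≤ 5 / (R * nt P) := by
    intro g j hj
    have h := UP_upper P g j hj (2 * Ww R) (hwle g j)
    refine h.trans (le_of_eq ?_)
    rw [hM0]
    field_simp
  have hgood : ∀ g, GoodU (UP P g) (P.m g) := by
    intro g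
    have hpos : ∀ j, j ≤ P.m g → 0 < UP P g j := by
      intro j hj
      rcases lt_or_eq_of_le hj with h | h
      · have hb0 := bbR_pos hR1 g j
        exact lt_of_lt_of_le (by positivity) (hlow g j h)
      · subst h
        exact lt_of_lt_of_le (by positivity) (htop g).1
    refine ⟨hpos, ?_, ?_⟩
    · intro j hj
      rcases lt_or_eq_of_le hj with h | h
      · refine (hgen g j h).trans ?_
        rw [div_le_div_iff₀ (by positivity) (by norm_num)]
        nlinarith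
      · subst h
        refine (htop g).2.trans ?_
        rw [div_le_div_iff₀ (by positivity) (by norm_num)]
        nlinarith
    · intro i j hij hj
      rcases lt_or_eq_of_le hij with h | h
      · rcases lt_or_eq_of_le hj with h' | h'
        · have h1 := hup g i (by omega)
          have h2 := hlow g j h'
          have h3 : (bb R g i : ℝ) ≤ bb R g j := by exact_mod_cast bb_mono hR1 g hij
          have hb0 := bbR_pos hR1 g j
          calc UP P g i ≤ (5 * bb R g i : ℝ) / (2 * nt P * P.M0) := h1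
            _ ≤ (5 * bb R g j : ℝ) / (2 * nt P * P.M0) := by gcongr
            _ = (1 + 9 / R) * ((5 * bb R g j : ℝ) / (2 * nt P * P.M0 * (1 + 9 / R))) := by
                field_simp
            _ ≤ (5 / 4) * UP P g j := by
                gcongr
                linarith [show (9 : ℝ) / 10 ^ 13 ≤ 1 / 4 by norm_num]
        · subst h'
          have h1 := hgen g i h
          have h2 := (htop g).1
          calc UP P g i ≤ 5 / (R * nt P) := h1
            _ ≤ (5 / 4) * (1 / (2 * nt P)) := by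
                rw [div_mul_div_comm, div_le_div_iff₀ (by positivity) (by positivity)]
                nlinarith
            _ ≤ _ := by gcongr
      · subst h
        have := hpos i hj
        linarith
  refine ⟨⟨by linarith, ?_⟩, ?_, hcard, hnt2, hp1, hdM, hdm, hlow, hup, htop, hgood, ?_⟩
  · nlinarith
  · have h : (2 : ℝ) * Fintype.card (Hx P) ≤ P.Mn := by nlinarith
    exact_mod_cast h
  · unfold EE
    rw [le_div_iff₀ (by norm_num)]
    nlinarith

end H72C.H77
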